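import Pool.Agent.P.MP_67c9d4_al.MX.All3

/-! Property (VRC), virtually RFRS and virtually special are equivalent for finitely generated
free-by-cyclic groups, up to finite index, whose mapping torus subgroups with finitely generated
fibre lie in subgroups that are virtually special, subexponential, or virtually have a cyclic
hierarchy with free or virtually compact special pieces in which no nontrivial element of an edge
group is conjugate into a free abelian subgroup of rank two of a special piece. -/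

namespace Pool.Agent.Results.MP_67c9d4_al.MixedTFAE

open Pool.Agent.P.MP_67c9d4_al

theorem result {G X : Type} [Group G] (K : Subgroup G) [K.FiniteIndex]
    (φ : MulAut (FreeGroup X)) (hG : Group.FG (MT φ)) (e : K ≃* MT φ)
    (h : ∀ (M : Subgroup (MT φ)) (g : MT φ), M.FG → (∀ m ∈ M, m.right = 1) → g.right ≠ 1 →
      (∀ m, m ∈ M ↔ g⁻¹ * m * g ∈ M) → ∃ T : Subgroup (MT φ), M ⊔ Subgroup.zpowers g ≤ T ∧
        (Virtually SpecialGroup T ∨
          (∃ (n : ℕ) (ψ : MulAut (FreeGroup (Fin n))),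
            (∀ (x : FreeGroup (Fin n)) (l : ℝ), 1 < l → ∃ C : ℝ, ∀ k : ℕ, ∃ y : FreeGroup (Fin n),
              ((y * (ψ ^ k) x * y⁻¹).norm : ℝ) ≤ C * l ^ k) ∧ Nonempty (T ≃* MT ψ)) ∨
          ∃ (L : Subgroup T) (H : Type) (_ : Group H) (χ : H →* Multiplicative ℤ) (E Z : Set H),
            L.FiniteIndex ∧ Hier3 H χ E Z ∧ (∀ e ∈ E, ∀ z ∈ Z, IsConj e z → e = 1) ∧
              Nonempty (L ≃* H))) :
    List.TFAE [VRC G, Virtually RFRS G, Virtually SpecialGroup G] := by
  have : Group.FG K := Group.fg_of_surjective (f := e.symm.toMonoidHom) e.symm.surjective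
  have inj : Function.Injective (K.subtype.comp e.symm.toMonoidHom) :=
    K.subtype_injective.comp e.symm.injective
  tfae_have 1 → 3 := fun hv => by
    have fi : (K.subtype.comp e.symm.toMonoidHom).range.FiniteIndex := by
      rw [MonoidHom.range_comp, MonoidHom.range_eq_top.2 e.symm.surjective, ← MonoidHom.range_eq_map,
        Subgroup.range_subtype]
      infer_instance
    refine (FR.a_SPV.2.1 _ _ _ inj).2.2 fi (FR.a_REDN X φ hG fun M g h1 h2 h3 h4 => ?_)
    obtain ⟨T, le, hT⟩ := h M g h1 h2 h3 h4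
    refine (FR.a_SPV.2.1 _ _ _ (Subgroup.inclusion_injective le)).1 (hT.elim id fun hT => ?_)
    have hv' : VRC T :=
      (FR.a_SPV.2.1 _ _ _ T.subtype_injective).2.1 ((FR.a_SPV.2.1 _ _ _ inj).2.1 hv)
    rcases hT with ⟨n, ψ, h5, ⟨ε⟩⟩ | ⟨L, H, _, χ, E, Z, h5, h6, h7, ⟨ε⟩⟩
    · refine ((PG.tfae_sub (⊤ : Subgroup T)
        (Or.inr ⟨n, ψ, ?_, ⟨Subgroup.topEquiv.trans ε⟩⟩)).out 0 2).1 hv'
      have e : (fun a b : Fin n => Classical.propDecidable (a = b)) = instDecidableEqFin n :=
        Subsingleton.elim _ _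
      unfold PG.SubExp
      rw [e]
      exact h5
    · have j : Function.Injective (L.subtype.comp ε.symm.toMonoidHom) :=
        L.subtype_injective.comp ε.symm.injective
      have fj : (L.subtype.comp ε.symm.toMonoidHom).range.FiniteIndex := by
        rwa [MonoidHom.range_comp, MonoidHom.range_eq_top.2 ε.symm.surjective,
          ← MonoidHom.range_eq_map, Subgroup.range_subtype]
      obtain ⟨L', hL', T', -, Γ, f, hf⟩ := MX.m_MAIN4 H χ E Z h6 h7
        (((MX.m_TFM X φ).comap T.subtype_injective).comap j) ((FR.a_SPV.2.1 _ _ _ j).2.1 hv')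
      exact (FR.a_SPV.2.1 _ _ _ j).2.2 fj ⟨L', hL', SP.special_of_emb f hf⟩
  tfae_have 3 → 2 := SP.vrfrs_of_vspecial K
  tfae_have 2 → 1 := SP.vrc_of_vrfrs
  tfae_finish

end Pool.Agent.Results.MP_67c9d4_al.MixedTFAE
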