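import Pool.Agent.P.MP_67c9d4_al.FR.All

/-! A finitely generated free-by-cyclic group is virtually special if and only if its mapping
torus subgroups with finitely generated fibre are virtually special. -/

namespace Pool.Agent.Results.MP_67c9d4_al.SubTori

open Pool.Agent.P.MP_67c9d4_al

theorem result {X : Type} (φ : MulAut (FreeGroup X)) (hG : Group.FG (MT φ)) :
    Virtually SpecialGroup (MT φ) ↔
      ∀ (M : Subgroup (MT φ)) (g : MT φ), M.FG → (∀ m ∈ M, m.right = 1) → g.right ≠ 1 →
        (∀ m, m ∈ M ↔ g⁻¹ * m * g ∈ M) →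
        Virtually SpecialGroup (M ⊔ Subgroup.zpowers g : Subgroup (MT φ)) :=
  ⟨fun h _ _ _ _ _ _ => (FR.a_SPV.2.1 _ _ _ (Subgroup.subtype_injective _)).1 h,
    FR.a_REDN X φ hG⟩

end Pool.Agent.Results.MP_67c9d4_al.SubTori
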