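import Pool.Agent.P.MP_67c9d4_al.VT.Red

/-! A finitely generated free-by-cyclic group has property (VRC) if and only if its mapping torus
subgroups with finitely generated fibre have property (VRC). -/

namespace Pool.Agent.Results.MP_67c9d4_al.VRCTori

open Pool.Agent.P.MP_67c9d4_al

theorem result {X : Type} (φ : MulAut (FreeGroup X)) (hG : Group.FG (MT φ)) :
    VRC (MT φ) ↔
      ∀ (M : Subgroup (MT φ)) (g : MT φ), M.FG → (∀ m ∈ M, m.right = 1) → g.right ≠ 1 →
        (∀ m, m ∈ M ↔ g⁻¹ * m * g ∈ M) → VRC (M ⊔ Subgroup.zpowers g : Subgroup (MT φ)) :=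
  ⟨fun h _ _ _ _ _ _ => (FR.a_SPV.2.1 _ _ _ (Subgroup.subtype_injective _)).2.1 h,
    VT.redn X φ hG⟩

end Pool.Agent.Results.MP_67c9d4_al.VRCTori
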